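import Pool.Agent.Helper58.FW.KX
import Pool.Agent.Helper6.FW.Sel

/-!
# FW: the cost of a level as one definition

`kAF` : the cost at the level `m` for the label value of `w` (one side); `kAF_nonneg`; `kAF_mean` = [KX].
-/

set_option autoImplicit false

namespace Pool.Agent.Helper58.FW

open Finset Pool.Agent.Helper69.RK Pool.Agent.Helper46.WF Pool.Agent.Helper58.VW Pool.Agent.Helper58.TR
open Pool.Agent.Helper61.GL hiding fl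
open Pool.Agent.Helper25.FA Pool.Agent.Helper99.FW Pool.Agent.Helper22.FW Pool.Agent.Helper18.FW
open Pool.Agent.Helper61.FW Pool.Agent.Helper78.FW Pool.Agent.Helper9.FW
open Pool.Agent.Helper9.ND (Rc)

section dfc

variable {Ω φ α β γ : Type} [Fintype Ω] {N k K : ℕ} {D : ED Ω φ α β N} {ρe η εQ ηQ c : ℝ} {tp : α → ℝ}
  {tq : β → ℝ} {Ap : α → Fin N → ℝ} {Cq : β → Fin N → ℝ} {Λ : Type} [Fintype Λ] {l : Λ → ℝ}
  {en : Fin (k + 2 * K) → Fin (k + 2 * K) → Λ → Ω} {E : ℝ}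

theorem fl_unit {n : ℕ} {x : ℝ} (h0 : 0 ≤ x) (h1 : x < 1) :
    (0 : ℝ) ≤ Pool.Agent.Helper92.W.fl n x ∧ (Pool.Agent.Helper92.W.fl n x : ℝ) ≤ 2 ^ n - 1 := by
  have p1 : (0 : ℝ) < 2 ^ n := by positivity
  have a1 : (0 : ℤ) ≤ Pool.Agent.Helper92.W.fl n x := by
    unfold Pool.Agent.Helper92.W.fl
    rw [Int.floor_nonneg]
    exact mul_nonneg p1.le h0
  have b1 : Pool.Agent.Helper92.W.fl n x ≤ 2 ^ n - 1 := by
    have : Pool.Agent.Helper92.W.fl n x < 2 ^ n := by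
      unfold Pool.Agent.Helper92.W.fl
      rw [Int.floor_lt]
      push_cast
      have := mul_lt_mul_of_pos_left h1 p1
      linarith
    omega
  exact ⟨by exact_mod_cast a1, by exact_mod_cast b1⟩

/-- the count deficit is not negative -/
theorem dfc_nonneg {ν' : Type} (h : EdgD D ρe η εQ ηQ c tp tq Ap Cq) (hr : AR D l en E) (nd : α → ν')
    (mv : ℕ → Option (Fin (k + 2 * K))) (a0 b0 a : Fin (k + 2 * K)) (b : Fin K)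
    (G : Lam Λ (Fin (k + 2 * K) → Ω) (8 * K) → γ) {w : Λ} (hw : l w ≠ 0) :
    0 ≤ dfc D tq l en nd mv a0 b0 a b G w := by
  have hb := chl_bs hr nd b0 mv a (8 * K)
  have hν := chl_nonneg hr nd b0 mv a (8 * K)
  have h1 := Pool.Agent.Helper6.FW.ch_alph (u := 2) (cb (chl D l en nd b0 mv a (8 * K)) (bs (8 * K)) l
    (Fp D en a0 b0) w) (cb_nonneg hb _ hν w)
    (fun v => fun e : Fin 2 => Pool.Agent.Helper92.W.fl D.n (tq (Qp D en a (8 * K) b v e))) G D.n (by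
      intro ω ω' _ _ e
      have h2 := h.ed.bT' (en a (car b e) (bs (8 * K) ω))
      have h3 := h.ed.bT' (en a (car b e) (bs (8 * K) ω'))
      have h4 := fl_unit (n := D.n) h2.1 h2.2
      have h5 := fl_unit (n := D.n) h3.1 h3.2
      have h6 : tq (Qp D en a (8 * K) b ω e) = tq (D.Q (en a (car b e) (bs (8 * K) ω))) := rfl
      have h7 : tq (Qp D en a (8 * K) b ω' e) = tq (D.Q (en a (car b e) (bs (8 * K) ω'))) := rfl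
      beta_reduce
      rw [h6, h7, abs_le]
      constructor <;> linarith)
  have h2 : mass (cb (chl D l en nd b0 mv a (8 * K)) (bs (8 * K)) l (Fp D en a0 b0) w) = 1 :=
    cb_sum hb _ hν w hw
  rw [h2, mul_one] at h1
  unfold dfc
  push_cast at h1
  linarith

end dfc

section ka

variable {Ω φ α β γ : Type} [Fintype Ω] [Fintype α] [Fintype β] {N k K : ℕ}

/-- the cost of the spectator `a` at the node level `m` -/
noncomputable def kaF (D : ED Ω φ α β N) {Λ : Type} [Fintype Λ] (l : Λ → ℝ)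
    (en : Fin (k + 2 * K) → Fin (k + 2 * K) → Λ → Ω) (FP : α → φ) (tp : α → ℝ) (Ap : α → Fin N → ℝ) (tq : β → ℝ)
    (P ρw dd r : ℕ) (g κ : ℝ) (oL : ℕ → ℕ) (mv : ℕ → Option (Fin (k + 2 * K)))
    (G : Fin (k + 2 * K) → ℕ → Fin K → Lam Λ (Fin (k + 2 * K) → Ω) (8 * K) → γ) (δ cd ce cT cn : ℝ)
    (a0 b0 a : Fin (k + 2 * K)) (w : Λ) (m : ℕ) : ℝ :=
  cd * ∑ b, dfc D tq l en ((sdL D FP tp Ap P ρw dd r g κ oL).nL m) mv a0 b0 a b (G a m b) w + ce +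
  cT * Ers D l en (EG N ρw dd r g κ (push D.P D.μ) tp Ap) FP tp P ρw oL (m / P) (m % P) δ b0 mv a (8 * K)
    (Fp D en a0 b0) w +
  cn * e1_ind (¬ IsNd (cw (push D.P D.μ) ((sdL D FP tp Ap P ρw dd r g κ oL).nL m)
    (D.P (en a b0 w))) tp m dd ρw (cl m (tp (D.P (en a b0 w)))))

/-- **the cost of the level `m`** (hypothesis hA / RowH), one side -/
noncomputable def kAF (D : ED Ω φ α β N) {Λ : Type} [Fintype Λ] (l : Λ → ℝ)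
    (en : Fin (k + 2 * K) → Fin (k + 2 * K) → Λ → Ω) (FP : α → φ) (tp : α → ℝ) (Ap : α → Fin N → ℝ) (FQ : β → φ)
    (tq : β → ℝ) (Cq : β → Fin N → ℝ) (P ρw dd r : ℕ) (g κ : ℝ) (oL oR : ℕ → ℕ) (S' C₀ L : ℕ)
    (mv : ℕ → Option (Fin (k + 2 * K)))
    (G : Fin (k + 2 * K) → ℕ → Fin K → Lam Λ (Fin (k + 2 * K) → Ω) (8 * K) → γ) (δ c0 k00 cd ce cT cn : ℝ)
    (R I : ℕ) (a0 b0 : Fin (k + 2 * K)) (b1 : Fin K) (w : Λ) (m : ℕ) : ℝ :=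
  if m % P < S' then
    (c0 * ∑ J ∈ range (L * P), bt (sdL D.mir FQ tq Cq P ρw dd r g κ oR) S' C₀ 270000 g D l en a0 b0
      (car b1 0) (car b1 1) J w + k00) +
    ∑ a ∈ spc k K, kaF D l en FP tp Ap tq P ρw dd r g κ oL mv G δ cd ce cT cn a0 b0 a w m
  else (R : ℝ) * I

omit [Fintype α] [Fintype β] in
theorem bt_nonneg {D : ED Ω φ α β N} {Λ R : Type} [Fintype Λ] {l : Λ → ℝ} (hl : ∀ w, 0 ≤ l w)
    {en : Fin (k + 2 * K) → Fin (k + 2 * K) → Λ → Ω} (SR : Sd φ β R N) (S' C₀ : ℕ) (r g : ℝ)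
    (a0 b0 c₁ c₂ : Fin (k + 2 * K)) (J : ℕ) (w : Λ) : 0 ≤ bt SR S' C₀ r g D l en a0 b0 c₁ c₂ J w := by
  unfold bt
  exact Pw_nonneg _ (fun x => cw_nonneg l _ hl w x) _

omit [Fintype β] in
theorem kaF_nonneg {D : ED Ω φ α β N} {ρe η εQ ηQ c : ℝ} {tp : α → ℝ} {tq : β → ℝ} {Ap : α → Fin N → ℝ}
    {Cq : β → Fin N → ℝ} {Λ : Type} [Fintype Λ] {l : Λ → ℝ} {en : Fin (k + 2 * K) → Fin (k + 2 * K) → Λ → Ω} {E : ℝ}
    (h : EdgD D ρe η εQ ηQ c tp tq Ap Cq) (hr : AR D l en E) (FP : α → φ) (P ρw dd r : ℕ) (g κ : ℝ) (oL : ℕ → ℕ)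
    (mv : ℕ → Option (Fin (k + 2 * K)))
    (G : Fin (k + 2 * K) → ℕ → Fin K → Lam Λ (Fin (k + 2 * K) → Ω) (8 * K) → γ) {δ cd ce cT cn : ℝ}
    (hδ : 0 ≤ δ) (hcd : 0 ≤ cd) (hce : 0 ≤ ce) (hcT : 0 ≤ cT) (hcn : 0 ≤ cn) (a0 b0 a : Fin (k + 2 * K)) {w : Λ}
    (hw : l w ≠ 0) (m : ℕ) : 0 ≤ kaF D l en FP tp Ap tq P ρw dd r g κ oL mv G δ cd ce cT cn a0 b0 a w m := by
  unfold kaF
  have h1 : 0 ≤ ∑ b, dfc D tq l en ((sdL D FP tp Ap P ρw dd r g κ oL).nL m) mv a0 b0 a b (G a m b) w :=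
    Finset.sum_nonneg fun b _ => dfc_nonneg h hr _ mv a0 b0 a b _ hw
  have h2 := ers_nonneg (EG N ρw dd r g κ (push D.P D.μ) tp Ap) FP tp P ρw oL (m / P) (m % P) b0 mv a (8 * K)
    (Fp D en a0 b0) hr hδ w
  have h3 : 0 ≤ e1_ind (¬ IsNd (cw (push D.P D.μ) ((sdL D FP tp Ap P ρw dd r g κ oL).nL m)
    (D.P (en a b0 w))) tp m dd ρw (cl m (tp (D.P (en a b0 w))))) := Pool.Agent.Helper31.EC.ind_nonneg _
  positivity

theorem kAF_nonneg {D : ED Ω φ α β N} {ρe η εQ ηQ c : ℝ} {tp : α → ℝ} {tq : β → ℝ} {Ap : α → Fin N → ℝ}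
    {Cq : β → Fin N → ℝ} {Λ : Type} [Fintype Λ] {l : Λ → ℝ} {en : Fin (k + 2 * K) → Fin (k + 2 * K) → Λ → Ω} {E : ℝ}
    (h : EdgD D ρe η εQ ηQ c tp tq Ap Cq) (hr : AR D l en E) (FP : α → φ) (FQ : β → φ) (P ρw dd r : ℕ) (g κ : ℝ)
    (oL oR : ℕ → ℕ) (S' C₀ L : ℕ) (mv : ℕ → Option (Fin (k + 2 * K)))
    (G : Fin (k + 2 * K) → ℕ → Fin K → Lam Λ (Fin (k + 2 * K) → Ω) (8 * K) → γ) {δ c0 k00 cd ce cT cn : ℝ}
    (hδ : 0 ≤ δ) (hc0 : 0 ≤ c0) (hk0 : 0 ≤ k00) (hcd : 0 ≤ cd) (hce : 0 ≤ ce) (hcT : 0 ≤ cT) (hcn : 0 ≤ cn)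
    (R I : ℕ) (a0 b0 : Fin (k + 2 * K)) (b1 : Fin K) {w : Λ} (hw : l w ≠ 0) (m : ℕ) :
    0 ≤ kAF D l en FP tp Ap FQ tq Cq P ρw dd r g κ oL oR S' C₀ L mv G δ c0 k00 cd ce cT cn R I a0 b0 b1 w m := by
  unfold kAF
  split_ifs
  · have h1 := Finset.sum_nonneg fun a (_ : a ∈ spc k K) =>
      kaF_nonneg h hr FP P ρw dd r g κ oL mv G hδ hcd hce hcT hcn a0 b0 a hw m
    have h2 : 0 ≤ ∑ J ∈ range (L * P), bt (sdL D.mir FQ tq Cq P ρw dd r g κ oR) S' C₀ 270000 g D l en a0 b0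
      (car b1 0) (car b1 1) J w := Finset.sum_nonneg fun J _ => bt_nonneg hr.nn _ S' C₀ _ g a0 b0 _ _ J w
    positivity
  · positivity

end ka

section mean

variable {Ω φ α β γ : Type} [Fintype Ω] [Fintype α] [Fintype β] {N k K : ℕ} {D : ED Ω φ α β (N + 1)}
  {ρe η εQ ηQ c : ℝ} {tp : α → ℝ} {tq : β → ℝ} {Ap : α → Fin (N + 1) → ℝ} {Cq : β → Fin (N + 1) → ℝ} {Λ : Type}
  [Fintype Λ] {l : Λ → ℝ} {en : Fin (k + 2 * K) → Fin (k + 2 * K) → Λ → Ω} {E : ℝ}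

/-- **[KX] for `kAF`** -/
theorem kAF_mean (h : EdgD D ρe η εQ ηQ c tp tq Ap Cq) (hr : AR D l en E) (hx : XA l en) {FP : α → φ}
    (hFP : ∀ ω, FP (D.P ω) = D.F ω) {FQ : β → φ}
    (hFQ : ∀ ω, FQ (D.Q ω) = D.F ω) {dd ρw r : ℕ} {g κ : ℝ} (hc : Cst (N + 1) dd ρw r g κ) (P : ℕ) (oL oR : ℕ → ℕ)
    (a0 b0 : Fin (k + 2 * K)) (b1 : Fin K) {C₀ S' L : ℕ} (hC : 1 ≤ C₀) (hSP : S' + C₀ + 2 ≤ P) (hSρ : S' + ρw ≤ P)
    (hn : L * P + C₀ ≤ D.n) (hsl : ((N + 1 : ℕ) : ℝ) / g * (Kas (N + 1) * 2 ^ (L * P)) ≤ 270000 * 2 ^ D.n)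
    (hρ : ρe ≤ N + 1) (hη : 0 ≤ η) (hd : 7 * E + 4 * (η * D.n) + 18 * (N + 1) ≤ ηQ * D.n) {kk : ℕ} (hk : kk ≤ D.n)
    (hkg : ((N + 1 : ℕ) : ℝ) / g * ((2 : ℝ) ^ kk)⁻¹ ≤ 270000) (hpos : 0 < ρe * D.n - kk - (21 * N + 28)) {εA : ℝ}
    (hεA : 6 * (η * D.n) + (N + 1) * (D.n + 5) * η + (N + 1) * εQ * D.n + 7 * E + 1 + (N + 1) * (5 * N + 25) ≤
      εA * (ρe * D.n - kk - (21 * N + 28)))
    {δ X : ℝ} (ho : ∀ a : Fin (k + 2 * K), ∑ i ∈ range L, ∑ s ∈ range S', ∑ mv : Option (Fin (k + 2 * K)),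
        Pw (push (row en a) l) (NCl D (push (row en a) l) b0 (EG (N + 1) ρw dd r g κ (push D.P D.μ) tp Ap) FP tp P ρw
          oL δ mv i s) ≤ X)
    (mv : ℕ → Option (Fin (k + 2 * K)))
    (G : Fin (k + 2 * K) → ℕ → Fin K → Lam Λ (Fin (k + 2 * K) → Ω) (8 * K) → γ)
    (hG : ∀ a m b w w', chl D l en ((sdL D FP tp Ap P ρw dd r g κ oL).nL m) b0 mv a (8 * K) w ≠ 0 →
      chl D l en ((sdL D FP tp Ap P ρw dd r g κ oL).nL m) b0 mv a (8 * K) w' ≠ 0 →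
      D.zd (cur (row en a) (8 * K) w b0) = D.zd (cur (row en a) (8 * K) w' b0) →
      (∀ j, 1 ≤ j → j ≤ 8 * K → Pp D en a b0 (8 * K) j w = Pp D en a b0 (8 * K) j w') →
      (∀ a', D.P (en a' b0 (bs (8 * K) w)) = D.P (en a' b0 (bs (8 * K) w'))) →
      (∀ c, (∀ e, c ≠ car b e) → D.Q (en a c (bs (8 * K) w)) = D.Q (en a c (bs (8 * K) w'))) →
      D.F (en a b0 (bs (8 * K) w)) = D.F (en a b0 (bs (8 * K) w')) → G a m b w = G a m b w')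
    (hGX : ∀ a m b w w', chl D l en ((sdL D FP tp Ap P ρw dd r g κ oL).nL m) b0 mv a (8 * K) w ≠ 0 →
      chl D l en ((sdL D FP tp Ap P ρw dd r g κ oL).nL m) b0 mv a (8 * K) w' ≠ 0 → G a m b w = G a m b w' →
      Fp D en a0 b0 (bs (8 * K) w) = Fp D en a0 b0 (bs (8 * K) w'))
    (R I : ℕ) {c0 k00 cd ce cT cn : ℝ} (hc0 : 0 ≤ c0) (hcd : 0 ≤ cd) (hcT : 0 ≤ cT) (hcn : 0 ≤ cn) :
    ∑ w, l w * ∑ m ∈ range (L * P),
      kAF D l en FP tp Ap FQ tq Cq P ρw dd r g κ oL oR S' C₀ L mv G δ c0 k00 cd ce cT cn R I a0 b0 b1 w m ≤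
      L * S' * (c0 * (L * (P - S') + clsN (N + 1) ρw r κ L P S' C₀ k E (η * D.n) εA) + k00) +
      k * (L * S' * (cd * (K * (2 * (η * D.n) + (2 * E + 8 * K * (E + 4 * (N + 1 : ℕ) + (η * D.n + (N + 1 : ℕ)))))) +
        ce) + cT * (L * S' * (8 * K * δ) + 8 * K * X) + cn * nBad (N + 1) r ρw L (η * D.n)) +
      L * (P - S') * (R * I) :=
  kx h hr hx hFP hFQ hc P oL oR a0 b0 b1 hC hSP hSρ hn hsl hρ hη hd hk hkg hpos hεA ho mv G hG hGX R I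
    (fun w m => c0 * ∑ J ∈ range (L * P), bt (sdL D.mir FQ tq Cq P ρw dd r g κ oR) S' C₀ 270000 g D l en a0 b0
      (car b1 0) (car b1 1) J w + k00)
    (fun a w m => kaF D l en FP tp Ap tq P ρw dd r g κ oL mv G δ cd ce cT cn a0 b0 a w m)
    hc0 hcd hcT hcn (fun _ _ _ _ _ => le_rfl) (fun _ _ _ _ _ _ _ => le_rfl)

end mean

end Pool.Agent.Helper58.FW
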