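import Pool.Agent.Helper58.FW.Cb
import Pool.Agent.Helper92.FW.Spn

/-!
# FW: per-x forms: bad events of selected carriers, spanning

Everything under the law `cb ν π l F w` of the chain given the label `F` of the base point.
-/

set_option autoImplicit false

namespace Pool.Agent.Helper58.FW

open Finset Pool.Agent.Helper69.RK Pool.Agent.Helper46.WF Pool.Agent.Helper58.VW
open Pool.Agent.Helper61.GL hiding fl
open Pool.Agent.Helper92.FW (Cle chain_tv xg_Pw xg_CH xg_cw_cw See Seen seen_chain net)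

variable {Ω' Λ γ δ V ι : Type} [Fintype Ω'] [Fintype Λ] [Fintype V]

/-- the one-step errors of a chain under the weights `P` -/
noncomputable def tv (ν P : Ω' → ℝ) (M : ℕ) (κ : Fin M → Type) (G : ∀ i, Ω' → κ i) (W : Ω' → Fin M → V)
    (ε : Fin M → ℝ) (wn : Ω' → V → ℝ) : ℝ :=
  ∑ i, (ε i + Pw P (fun ω => ¬ Cle (cw ν (G i) ω) (fun ω => W ω i) (wn ω) (ε i)))

/-- the mean of the one-step errors -/
theorem tv_mean {ν : Ω' → ℝ} {π : Ω' → Λ} {l : Λ → ℝ} (hl : push π ν = l) (hm : ∑ w, l w = 1) (F : Λ → γ)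
    (hν : ∀ ω, 0 ≤ ν ω) (M : ℕ) (κ : Fin M → Type) (G : ∀ i, Ω' → κ i) (W : Ω' → Fin M → V)
    (ε : Fin M → ℝ) (wn : Ω' → V → ℝ) :
    ∑ w, l w * tv ν (cb ν π l F w) M κ G W ε wn = tv ν ν M κ G W ε wn := by
  unfold tv
  simp only [Finset.mul_sum, mul_add]
  rw [Finset.sum_comm]
  refine Finset.sum_congr rfl fun i _ => ?_
  rw [Finset.sum_add_distrib, ← Finset.sum_mul, hm, one_mul,
    cb_mean_Pw hl F hν (fun ω => ¬ Cle (cw ν (G i) ω) (fun ω => W ω i) (wn ω) (ε i))]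

/-- the one-step errors with respect to the conditional law -/
theorem tv_eq {ν : Ω' → ℝ} {π : Ω' → Λ} {l : Λ → ℝ} (hl : push π ν = l) (F : Λ → γ)
    (hν : ∀ ω, 0 ≤ ν ω) (M : ℕ) (κ : Fin M → Type) (G : ∀ i, Ω' → κ i) (W : Ω' → Fin M → V)
    (ε : Fin M → ℝ) (wn wn' : Ω' → V → ℝ) (w : Λ) (hw : l w ≠ 0)
    (hG : ∀ i a b, ν a ≠ 0 → ν b ≠ 0 → G i a = G i b → F (π a) = F (π b))
    (hwn : ∀ ω, cb ν π l F w ω ≠ 0 → wn ω = wn' ω) :
    ∑ i, (ε i + Pw (cb ν π l F w) (fun ω => ¬ Cle (cw (cb ν π l F w) (G i) ω) (fun ω => W ω i) (wn ω) (ε i))) =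
      tv ν (cb ν π l F w) M κ G W ε wn' := by
  classical
  unfold tv
  refine Finset.sum_congr rfl fun i _ => ?_
  congr 1
  unfold Pw
  refine Finset.sum_congr rfl fun ω _ => ?_
  by_cases h0 : cb ν π l F w ω = 0
  · rw [h0]
    split_ifs <;> rfl
  · beta_reduce
    rw [cb_cw hl F w hw hν (G i) (fun a b ha hb e => hG i a b ha hb e) h0, hwn ω h0]

/-- **BAD EVENTS OF SELECTED CARRIERS, PER x**: `wn (F w)` is the law of a window, `sel (F w)` the selection rule -/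
theorem selX {ν : Ω' → ℝ} {π : Ω' → Λ} {l : Λ → ℝ} (hl : push π ν = l) (F : Λ → γ) (g0 : Λ → δ)
    (hν : ∀ ω, 0 ≤ ν ω) (M : ℕ) (κ : Fin M → Type) (G : ∀ i, Ω' → κ i) (W : Ω' → Fin M → V)
    (ε : Fin M → ℝ) (hε : ∀ i, 0 ≤ ε i) (wn : γ → V → ℝ) (hwn : ∀ a v, 0 ≤ wn a v) (hwn1 : ∀ a, ∑ v, wn a v = 1)
    (w : Λ) (hw : l w ≠ 0)
    (hG : ∀ i a b, ν a ≠ 0 → ν b ≠ 0 → G i a = G i b →
      (F (π a) = F (π b) ∧ g0 (π a) = g0 (π b)) ∧ ∀ j, j < i → W a j = W b j)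
    (sel : γ → (Fin M → V) → ι) (J : Finset ℕ) (Bad : ℕ → ι → δ → Prop) (β : ℕ → ℝ)
    (hβ : ∀ j ∈ J, ∀ b, Pw (cw l F w) (fun x => Bad j b (g0 x)) ≤ β j) :
    ∑ j ∈ J, Pw (cb ν π l F w) (fun ω => Bad j (sel (F w) (W ω)) (g0 (π ω))) ≤
      ∑ j ∈ J, β j + J.card * tv ν (cb ν π l F w) M κ G W ε (fun ω => wn (F (π ω))) := by
  have hP := cb_nonneg hl F hν w
  have h := sel_bad_sum (cb ν π l F w) hP (cb_sum hl F hν w hw) (fun ω => g0 (π ω)) (wn (F w)) (hwn _) (hwn1 _)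
    M κ G W ε hε (fun i a b ha hb e => by
      obtain ⟨⟨-, h2⟩, h3⟩ := hG i a b (cb_supp F ha).2 (cb_supp F hb).2 e
      exact ⟨h2, h3⟩) (sel (F w)) J Bad β (fun j hj b => by
      rw [cb_base hl F w hw (fun x => Bad j b (g0 x))]
      exact hβ j hj b)
  refine h.trans (le_of_eq ?_)
  rw [tv_eq hl F hν M κ G W ε (fun _ => wn (F w)) (fun ω => wn (F (π ω))) w hw
    (fun i a b ha hb e => (hG i a b ha hb e).1.1) (fun ω h0 => by rw [(cb_supp F h0).1])]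

/-- **SPANNING, PER x**: at a good node the windows of the chain see every direction -/
theorem seenX {N : ℕ} {ν : Ω' → ℝ} {π : Ω' → Λ} {l : Λ → ℝ} (hl : push π ν = l) (F : Λ → γ)
    (hν : ∀ ω, 0 ≤ ν ω) (M : ℕ) (κ : Fin M → Type) (G : ∀ i, Ω' → κ i) (W : Ω' → Fin M → V)
    (ε : Fin M → ℝ) (hε : ∀ i, 0 ≤ ε i) (wn : γ → V → ℝ) (hwn : ∀ a v, 0 ≤ wn a v) (hwn1 : ∀ a, ∑ v, wn a v = 1)
    (w : Λ) (hw : l w ≠ 0)
    (hG : ∀ i a b, ν a ≠ 0 → ν b ≠ 0 → G i a = G i b → F (π a) = F (π b) ∧ ∀ j, j < i → W a j = W b j)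
    (T : γ → V → Fin N → ℝ) (φ : γ → Fin N → Fin N → ℝ) {c p : ℝ} (hc : 0 < c) (hp : p ≤ 1)
    (hsee : See (T (F w)) (φ (F w)) (wn (F w)) c p) :
    Pw (cb ν π l F w) (fun ω => ¬ Seen (T (F w)) (φ (F w)) c (W ω)) ≤
      (net N c).card * (1 - p) ^ M + tv ν (cb ν π l F w) M κ G W ε (fun ω => wn (F (π ω))) := by
  have hP := cb_nonneg hl F hν w
  have h := seen_chain (cb ν π l F w) hP (cb_sum hl F hν w hw) (fun _ => F w) wn hwn hwn1 T φ hc hp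
    M κ G W ε hε (fun i a b ha hb e => ⟨rfl, (hG i a b (cb_supp F ha).2 (cb_supp F hb).2 e).2⟩)
  have h2 := tv_eq hl F hν M κ G W ε (fun _ => wn (F w)) (fun ω => wn (F (π ω))) w hw
    (fun i a b ha hb e => (hG i a b ha hb e).1) (fun ω h0 => by rw [(cb_supp F h0).1])
  rw [h2] at h
  refine le_trans (le_of_eq ?_) h
  congr 1
  funext ω
  exact propext ⟨fun h => ⟨hsee, h⟩, fun h => h.2⟩

end Pool.Agent.Helper58.FW
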