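import Pool.Agent.Helper58.FW.Sel
import Pool.Agent.Helper92.FW.Xg
import Pool.Agent.Helper25.FA.Mov

/-!
# FW: the conditional law of a chain given the label of the base point

`ν` a law on `Ω'` (chain), `π : Ω' → Λ` (base), `l = push π ν`, `F` a label of the base point. `cb ν π l F w` is the law
`ν` given `F (π ω') = F w`, a function of the point `w` of the base.
-/

set_option autoImplicit false

namespace Pool.Agent.Helper58.FW

open Finset Pool.Agent.Helper69.RK Pool.Agent.Helper46.WF Pool.Agent.Helper58.VW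
open Pool.Agent.Helper61.GL hiding fl
open Pool.Agent.Helper92.FW (Cle chain_tv xg_Pw xg_CH xg_cw_cw)
open Pool.Agent.Helper25.FA (push_ne)

variable {Ω' Λ γ κ α β : Type} [Fintype Ω'] [Fintype Λ]

/-- the law `ν` given the label of the base -/
noncomputable def cb (ν : Ω' → ℝ) (π : Ω' → Λ) (l : Λ → ℝ) (F : Λ → γ) (w : Λ) : Ω' → ℝ := by
  classical
  exact fun ω => (if F (π ω) = F w then ν ω else 0) / pr l F w

section

variable {ν : Ω' → ℝ} {π : Ω' → Λ} {l : Λ → ℝ} (hl : push π ν = l) (F : Λ → γ)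
include hl

theorem cb_eq (ω : Ω') : cb ν π l F (π ω) = cw ν (fun ω => F (π ω)) ω := by
  classical
  subst hl
  funext ω'
  unfold cb cw
  rw [push_pr]

omit hl [Fintype Ω'] in
theorem cb_congr {w w' : Λ} (h : F w = F w') : cb ν π l F w = cb ν π l F w' := by
  classical
  funext ω
  unfold cb
  rw [e1_pr_atom l F w w' h, h]

theorem cb_cases (w : Λ) (hw : l w ≠ 0) : ∃ ω, ν ω ≠ 0 ∧ π ω = w ∧ cb ν π l F w = cw ν (fun ω => F (π ω)) ω := by
  subst hl
  obtain ⟨ω, h1, h2⟩ := push_ne π ν w hw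
  refine ⟨ω, h1, h2, ?_⟩
  rw [← h2]
  exact cb_eq rfl F ω

theorem cb_nonneg (hν : ∀ ω, 0 ≤ ν ω) (w : Λ) (ω : Ω') : 0 ≤ cb ν π l F w ω := by
  classical
  subst hl
  unfold cb
  have h1 : 0 ≤ pr (push π ν) F w := by
    rw [e1_pr_eq]
    refine Finset.sum_nonneg fun x _ => ?_
    split_ifs
    · unfold push
      exact Finset.sum_nonneg fun y _ => by split_ifs <;> [exact hν y; exact le_rfl]
    · exact le_rfl
  split_ifs
  · exact div_nonneg (hν ω) h1
  · rw [zero_div]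

theorem cb_sum (hν : ∀ ω, 0 ≤ ν ω) (w : Λ) (hw : l w ≠ 0) : ∑ ω, cb ν π l F w ω = 1 := by
  obtain ⟨ω, h1, h2, h3⟩ := cb_cases hl F w hw
  rw [h3]
  exact cw_sum ν _ hν ω h1

omit hl [Fintype Ω'] in
theorem cb_supp {w : Λ} {ω : Ω'} (h : cb ν π l F w ω ≠ 0) : F (π ω) = F w ∧ ν ω ≠ 0 := by
  classical
  unfold cb at h
  split_ifs at h with h1
  · exact ⟨h1, fun h2 => h (by rw [h2, zero_div])⟩
  · exact absurd (by rw [zero_div]) h

/-- the mean over the base -/
theorem cb_mean (hν : ∀ ω, 0 ≤ ν ω) (φ : Ω' → ℝ) :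
    ∑ w, l w * ∑ ω, cb ν π l F w ω * φ ω = ∑ ω, ν ω * φ ω := by
  have h1 := push_sum π ν (fun w => ∑ ω, cb ν π l F w ω * φ ω)
  rw [hl] at h1
  rw [h1, ← cw_expect ν hν (fun ω => F (π ω)) φ]
  refine Finset.sum_congr rfl fun ω _ => ?_
  rw [cb_eq hl F ω]

theorem cb_mean_Pw (hν : ∀ ω, 0 ≤ ν ω) (A : Ω' → Prop) :
    ∑ w, l w * Pw (cb ν π l F w) A = Pw ν A := by
  have h1 := push_sum π ν (fun w => Pw (cb ν π l F w) A)
  rw [hl] at h1
  rw [h1, ← xg_Pw ν hν (fun ω => F (π ω)) A]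
  refine Finset.sum_congr rfl fun ω _ => ?_
  rw [cb_eq hl F ω]

/-- the mean of the conditional entropies -/
theorem cb_mean_CH (hν : ∀ ω, 0 ≤ ν ω) (X : Ω' → α) (Y : Ω' → β) :
    ∑ w, l w * CH (cb ν π l F w) X Y = CH ν X (fun ω => (Y ω, F (π ω))) := by
  have h1 := push_sum π ν (fun w => CH (cb ν π l F w) X Y)
  rw [hl] at h1
  rw [h1, ← xg_CH ν hν X Y (fun ω => F (π ω))]
  refine Finset.sum_congr rfl fun ω _ => ?_
  rw [cb_eq hl F ω]

/-- events of the base -/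
theorem cb_base (w : Λ) (hw : l w ≠ 0) (B : Λ → Prop) :
    Pw (cb ν π l F w) (fun ω => B (π ω)) = Pw (cw l F w) B := by
  classical
  obtain ⟨ω, -, h2, h3⟩ := cb_cases hl F w hw
  subst hl
  have h := push_cw π ν F ω (fun w => if B w then 1 else 0)
  rw [h3, ← h2]
  unfold Pw
  simp only [mul_ite, mul_one, mul_zero] at h
  exact h.symm

/-- the label of the base refines the condition -/
theorem cb_cw (w : Λ) (hw : l w ≠ 0) (hν : ∀ ω, 0 ≤ ν ω) (G : Ω' → κ)
    (hG : ∀ a b, ν a ≠ 0 → ν b ≠ 0 → G a = G b → F (π a) = F (π b)) {ω : Ω'} (h : cb ν π l F w ω ≠ 0) :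
    cw (cb ν π l F w) G ω = cw ν G ω := by
  obtain ⟨ω0, h1, h2, h3⟩ := cb_cases hl F w hw
  rw [h3] at h ⊢
  funext ω'
  exact xg_cw_cw ν hν (fun ω => F (π ω)) G ω0 ω ω' h hG

end

/-- exchange inside of the base -/
theorem cw_equiv (l : Λ → ℝ) (F : Λ → γ) (e : Λ ≃ Λ) (he : ∀ w, l (e w) = l w)
    (hF : ∀ w, l w ≠ 0 → F (e w) = F w) (w : Λ) (B B' : Λ → Prop) (hB : ∀ w, l w ≠ 0 → (B' w ↔ B (e w))) :
    Pw (cw l F w) B' = Pw (cw l F w) B := by
  classical
  unfold Pw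
  rw [← Equiv.sum_comp e (fun x => if B x then cw l F w x else 0)]
  refine Finset.sum_congr rfl fun x _ => ?_
  by_cases h0 : l x = 0
  · have h1 : cw l F w x = 0 := by
      unfold cw
      rw [h0]
      simp
    have h2 : cw l F w (e x) = 0 := by
      unfold cw
      rw [he, h0]
      simp
    rw [h1, h2]
    split_ifs <;> rfl
  · have h1 : cw l F w (e x) = cw l F w x := by
      unfold cw
      rw [he, hF x h0]
    rw [h1]
    by_cases h2 : B' x
    · rw [if_pos h2, if_pos ((hB x h0).1 h2)]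
    · rw [if_neg h2, if_neg (fun h => h2 ((hB x h0).2 h))]

/-- exchange inside of the base, whole law and a label -/
theorem Pw_equiv (l : Λ → ℝ) (e : Λ ≃ Λ) (he : ∀ w, l (e w) = l w) (B B' : Λ → Prop)
    (hB : ∀ w, l w ≠ 0 → (B' w ↔ B (e w))) : Pw l B' = Pw l B := by
  classical
  unfold Pw
  rw [← Equiv.sum_comp e (fun x => if B x then l x else 0)]
  refine Finset.sum_congr rfl fun x _ => ?_
  by_cases h0 : l x = 0
  · rw [he, h0]
    split_ifs <;> rfl
  · rw [he]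
    by_cases h2 : B' x
    · rw [if_pos h2, if_pos ((hB x h0).1 h2)]
    · rw [if_neg h2, if_neg (fun h => h2 ((hB x h0).2 h))]

end Pool.Agent.Helper58.FW
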