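import Pool.Agent.Helper61.FW.OffX
import Pool.Agent.Helper61.FW.Cfin
import Pool.Agent.Helper9.FW.Seenx
import Pool.Agent.Helper78.FW.Badg
import Pool.Agent.Helper78.FW.Row

/-!
# FW, row [KX]: the means of the costs of one side

`kx_cnt` : count deficits; `kx_ers` : one-step errors; `kx_bt` : bad events of the carriers; `kx_nd` : bad nodes;
`kx` : all together, in the form of `rows_mean` (hypothesis `hKA` of `cfin`).
-/

set_option autoImplicit false

namespace Pool.Agent.Helper58.FW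

open Finset Pool.Agent.Helper69.RK Pool.Agent.Helper46.WF Pool.Agent.Helper58.VW Pool.Agent.Helper58.TR
open Pool.Agent.Helper61.GL hiding fl
open Pool.Agent.Helper25.FA Pool.Agent.Helper99.FW Pool.Agent.Helper22.FW Pool.Agent.Helper18.FW
open Pool.Agent.Helper61.FW Pool.Agent.Helper78.FW Pool.Agent.Helper9.FW
open Pool.Agent.Helper9.ND (Rc)

section means

variable {Ω φ α β γ : Type} [Fintype Ω] {N k K : ℕ} {D : ED Ω φ α β N} {ρe η εQ ηQ c : ℝ} {tp : α → ℝ}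
  {tq : β → ℝ} {Ap : α → Fin N → ℝ} {Cq : β → Fin N → ℝ} {Λ : Type} [Fintype Λ] {l : Λ → ℝ}
  {en : Fin (k + 2 * K) → Fin (k + 2 * K) → Λ → Ω} {E : ℝ}

/-- the count deficit of the carriers of the block `b`, given the label of the spectators -/
noncomputable def dfc {ν' : Type} (D : ED Ω φ α β N) (tq : β → ℝ) (l : Λ → ℝ)
    (en : Fin (k + 2 * K) → Fin (k + 2 * K) → Λ → Ω) (nd : α → ν') (mv : ℕ → Option (Fin (k + 2 * K)))
    (a0 b0 a : Fin (k + 2 * K)) (b : Fin K) (G : Lam Λ (Fin (k + 2 * K) → Ω) (8 * K) → γ) (w : Λ) : ℝ :=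
  2 * D.n - CH (cb (chl D l en nd b0 mv a (8 * K)) (bs (8 * K)) l (Fp D en a0 b0) w)
    (fun v => fun e : Fin 2 => Pool.Agent.Helper92.W.fl D.n (tq (Qp D en a (8 * K) b v e))) G

/-- **the mean of the count deficit** -/
theorem kx_cnt {ν' : Type} (h : EdgD D ρe η εQ ηQ c tp tq Ap Cq) (hr : AR D l en E) (hη : 0 ≤ η) (nd : α → ν')
    (mv : ℕ → Option (Fin (k + 2 * K))) (a0 b0 a : Fin (k + 2 * K)) (b : Fin K)
    (G : Lam Λ (Fin (k + 2 * K) → Ω) (8 * K) → γ)
    (hG : ∀ w w', chl D l en nd b0 mv a (8 * K) w ≠ 0 → chl D l en nd b0 mv a (8 * K) w' ≠ 0 →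
      D.zd (cur (row en a) (8 * K) w b0) = D.zd (cur (row en a) (8 * K) w' b0) →
      (∀ j, 1 ≤ j → j ≤ 8 * K → Pp D en a b0 (8 * K) j w = Pp D en a b0 (8 * K) j w') →
      (∀ a', D.P (en a' b0 (bs (8 * K) w)) = D.P (en a' b0 (bs (8 * K) w'))) →
      (∀ c, (∀ e, c ≠ car b e) → D.Q (en a c (bs (8 * K) w)) = D.Q (en a c (bs (8 * K) w'))) →
      D.F (en a b0 (bs (8 * K) w)) = D.F (en a b0 (bs (8 * K) w')) → G w = G w')
    (hGX : ∀ w w', chl D l en nd b0 mv a (8 * K) w ≠ 0 → chl D l en nd b0 mv a (8 * K) w' ≠ 0 → G w = G w' →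
      Fp D en a0 b0 (bs (8 * K) w) = Fp D en a0 b0 (bs (8 * K) w')) :
    ∑ w, l w * dfc D tq l en nd mv a0 b0 a b G w ≤
      2 * (η * D.n) + (2 * E + 8 * K * (E + 4 * N + (η * D.n + N))) := by
  have hb := chl_bs hr nd b0 mv a (8 * K)
  have hν := chl_nonneg hr nd b0 mv a (8 * K)
  have hml : ∑ w, l w = 1 := by
    have h1 : mass l = 1 := by
      rw [← Pool.Agent.Helper6.VS.push_mass (en a b0) l hr.nn, hr.pu a b0]
      exact h.ed.ms
    exact h1
  have h1 := hr.kcount h.ed.ms (η * D.n + N) (by positivity) h.e3 nd a b0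
    (fun q => Pool.Agent.Helper92.W.fl D.n (tq q)) b mv G hG
  have h2 := cb_mean_CH hb (Fp D en a0 b0) hν
    (fun v => fun e : Fin 2 => Pool.Agent.Helper92.W.fl D.n (tq (Qp D en a (8 * K) b v e))) G
  have h3 : CH (chl D l en nd b0 mv a (8 * K))
      (fun v => fun e : Fin 2 => Pool.Agent.Helper92.W.fl D.n (tq (Qp D en a (8 * K) b v e)))
      (fun v => (G v, Fp D en a0 b0 (bs (8 * K) v))) = CH (chl D l en nd b0 mv a (8 * K))
      (fun v => fun e : Fin 2 => Pool.Agent.Helper92.W.fl D.n (tq (Qp D en a (8 * K) b v e))) G := by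
    apply ch_congr_right
    intro w w' hw hw'
    rw [Prod.mk.injEq]
    exact ⟨fun e => e.1, fun e => ⟨e, hGX w w' hw hw' e⟩⟩
  rw [h3] at h2
  unfold dfc
  simp only [mul_sub, Finset.sum_sub_distrib]
  rw [h2, ← Finset.sum_mul, hml, one_mul]
  have h4 : (1 - η) * D.n ≤ CH D.μ (fun ω => Pool.Agent.Helper92.W.fl D.n (tq (D.Q ω))) D.F := h.ed.r2
  push_cast at h1
  linarith

/-- **the mean of the one-step errors**, summed over the node levels -/
theorem kx_ers {R : Type} [Fintype α] [Fintype R] (h : EdgD D ρe η εQ ηQ c tp tq Ap Cq) (hr : AR D l en E)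
    (EE : ℕ → (α → Lb φ R) → α → R) (FP : α → φ) (P ρw S' : ℕ) (hSP : S' ≤ P) (o : ℕ → ℕ) {δ : ℝ} (L : ℕ)
    (b0 a : Fin (k + 2 * K)) (mv : ℕ → Option (Fin (k + 2 * K))) (Fl : Λ → γ) {X : ℝ}
    (ho : ∑ i ∈ range L, ∑ s ∈ range S', ∑ mv : Option (Fin (k + 2 * K)),
        Pw (push (row en a) l) (NCl D (push (row en a) l) b0 EE FP tp P ρw o δ mv i s) ≤ X) :
    ∑ m ∈ (range (L * P)).filter (fun m => m % P < S'), ∑ w, l w *
      Ers D l en EE FP tp P ρw o (m / P) (m % P) δ b0 mv a (8 * K) Fl w ≤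
      L * S' * (8 * K * δ) + 8 * K * X := by
  have hml : ∑ w, l w = 1 := by
    have h1 : mass l = 1 := by
      rw [← Pool.Agent.Helper6.VS.push_mass (en a b0) l hr.nn, hr.pu a b0]
      exact h.ed.ms
    exact h1
  have hΘ : ∀ x, 0 ≤ push (row en a) l x := fun x => Pool.Agent.Helper31.EC.push_nn _ _ hr.nn x
  have h1 : ∀ i s, ∑ w, l w * Ers D l en EE FP tp P ρw o i s δ b0 mv a (8 * K) Fl w ≤
      8 * K * δ + 8 * K * ∑ mv : Option (Fin (k + 2 * K)),
        Pw (push (row en a) l) (NCl D (push (row en a) l) b0 EE FP tp P ρw o δ mv i s) := by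
    intro i s
    rw [ers_mean hr EE FP tp P ρw o i s b0 mv a (8 * K) Fl hml δ, Finset.sum_add_distrib, Finset.sum_const,
      card_range, nsmul_eq_mul]
    push_cast
    refine add_le_add le_rfl ?_
    calc ∑ j ∈ range (8 * K), Pw (push (row en a) l)
          (NCl D (push (row en a) l) b0 EE FP tp P ρw o δ (mv j) i s) ≤
        ∑ _j ∈ range (8 * K), ∑ mv : Option (Fin (k + 2 * K)),
        Pw (push (row en a) l) (NCl D (push (row en a) l) b0 EE FP tp P ρw o δ mv i s) :=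
          Finset.sum_le_sum fun j _ => Finset.single_le_sum (f := fun mv => Pw (push (row en a) l)
            (NCl D (push (row en a) l) b0 EE FP tp P ρw o δ mv i s)) (fun mv _ => Pw_nonneg _ hΘ _)
            (Finset.mem_univ (mv j))
      _ = _ := by
          rw [Finset.sum_const, card_range, nsmul_eq_mul]
          push_cast
          ring
  have h2 := Pool.Agent.Helper82.FW.sum_filter_lt L P S' hSP
    (fun i s => ∑ w, l w * Ers D l en EE FP tp P ρw o i s δ b0 mv a (8 * K) Fl w)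
  rw [h2]
  refine (Finset.sum_le_sum fun i _ => Finset.sum_le_sum fun s _ => h1 i s).trans ?_
  simp only [Finset.sum_add_distrib, Finset.sum_const, card_range, nsmul_eq_mul, ← Finset.mul_sum]
  have h3 : (0 : ℝ) ≤ 8 * K := by positivity
  have h4 := mul_le_mul_of_nonneg_left ho h3
  linarith

/-- **the mean of the number of bad nodes** -/
theorem kx_nd [Fintype α] (h : EdgD D ρe η εQ ηQ c tp tq Ap Cq) {FP : α → φ} (hFP : ∀ ω, FP (D.P ω) = D.F ω)
    (hr : AR D l en E) {P ρw Dw r S' L : ℕ} {g κ : ℝ} (hDρ : Dw ≤ ρw) (o : ℕ → ℕ) (hSP : S' + ρw ≤ P)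
    (hL : L * P ≤ D.n) (b0 a : Fin (k + 2 * K)) :
    ∑ m ∈ (range (L * P)).filter (fun m => m % P < S'), Pw l (fun w =>
      ¬ IsNd (cw (push D.P D.μ) ((sdL D FP tp Ap P ρw Dw r g κ o).nL m) (D.P (en a b0 w))) tp
        m Dw ρw (cl m (tp (D.P (en a b0 w))))) ≤ nBad N r ρw L (η * D.n) := by
  have h1 := sdL_nd h hFP (r := r) (g := g) (κ := κ) hDρ o hSP hL
    (Sm := (range (L * P)).filter (fun m => m % P < S')) (fun m hm => by
      rw [Finset.mem_filter, Finset.mem_range] at hm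
      exact hm)
  refine le_trans (le_of_eq ?_) h1
  refine Finset.sum_congr rfl fun m _ => ?_
  have h2 := Pool.Agent.Helper78.FW.finT_push l (en a b0) (fun ω =>
    ¬ IsNd (cw (push D.P D.μ) ((sdL D FP tp Ap P ρw Dw r g κ o).nL m) (D.P ω)) tp m Dw ρw (cl m (tp (D.P ω))))
  rw [hr.pu a b0] at h2
  exact h2.symm

end means

theorem lin4 {Λ : Type} [Fintype Λ] (l : Λ → ℝ) (hm : ∑ w, l w = 1) (u₁ u₂ u₃ : Λ → ℝ) (a b c d : ℝ) :
    ∑ w, l w * (a * u₁ w + b + c * u₂ w + d * u₃ w) =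
      a * (∑ w, l w * u₁ w) + b + c * (∑ w, l w * u₂ w) + d * ∑ w, l w * u₃ w := by
  have h1 : b = ∑ w, l w * b := by rw [← Finset.sum_mul, hm, one_mul]
  conv_rhs => rw [h1]
  simp only [Finset.mul_sum]
  rw [← Finset.sum_add_distrib, ← Finset.sum_add_distrib, ← Finset.sum_add_distrib]
  exact Finset.sum_congr rfl fun w _ => by ring

section one

variable {Ω φ α β γ : Type} [Fintype Ω] [Fintype α] [Fintype β] {N k K : ℕ} {D : ED Ω φ α β (N + 1)}
  {ρe η εQ ηQ c : ℝ} {tp : α → ℝ} {tq : β → ℝ} {Ap : α → Fin (N + 1) → ℝ} {Cq : β → Fin (N + 1) → ℝ} {Λ : Type}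
  [Fintype Λ] {l : Λ → ℝ} {en : Fin (k + 2 * K) → Fin (k + 2 * K) → Λ → Ω} {E : ℝ}

omit [Fintype α] in
/-- **the mean of the bad events of the carriers** -/
theorem kx_bt (h : EdgD D ρe η εQ ηQ c tp tq Ap Cq) (hr : AR D l en E) (hx : XA l en) {FQ : β → φ}
    (hFQ : ∀ ω, FQ (D.Q ω) = D.F ω) {dd ρw r : ℕ} {g κ : ℝ} (hc : Cst (N + 1) dd ρw r g κ) (P : ℕ) (o : ℕ → ℕ)
    (a0 b0 : Fin (k + 2 * K)) (b : Fin K) {C₀ S' L : ℕ} (hC : 1 ≤ C₀) (hSP : S' + C₀ + 2 ≤ P) (hSρ : S' + ρw ≤ P)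
    (hn : L * P + C₀ ≤ D.n) (hsl : ((N + 1 : ℕ) : ℝ) / g * (Kas (N + 1) * 2 ^ (L * P)) ≤ 270000 * 2 ^ D.n)
    (hρ : ρe ≤ N + 1) (hη : 0 ≤ η) (hd : 7 * E + 4 * (η * D.n) + 18 * (N + 1) ≤ ηQ * D.n) {kk : ℕ} (hk : kk ≤ D.n)
    (hkg : ((N + 1 : ℕ) : ℝ) / g * ((2 : ℝ) ^ kk)⁻¹ ≤ 270000) (hpos : 0 < ρe * D.n - kk - (21 * N + 28)) {εA : ℝ}
    (hεA : 6 * (η * D.n) + (N + 1) * (D.n + 5) * η + (N + 1) * εQ * D.n + 7 * E + 1 + (N + 1) * (5 * N + 25) ≤
      εA * (ρe * D.n - kk - (21 * N + 28))) :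
    ∑ w, l w * ∑ J ∈ range (L * P), bt (sdL D.mir FQ tq Cq P ρw dd r g κ o) S' C₀ 270000 g D l en a0 b0
      (car b 0) (car b 1) J w ≤ L * (P - S') + clsN (N + 1) ρw r κ L P S' C₀ k E (η * D.n) εA := by
  classical
  have hne : car (k := k) b 0 ≠ car b 1 := fun e => absurd (car_inj e).2 (by decide)
  have h1 := cls_AR hc h hr FQ (fun ω _ => hFQ ω) P o a0
    (fun x y W => by
      obtain ⟨e, he, hen⟩ := hx.col (Equiv.swap x y)
      have h2 := Pw_move e he (fun w => W (fun d => D.Q (en a0 d w)))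
      rw [← h2]
      congr 1
      funext w
      congr 1
      funext d
      simp only [Function.comp, hen]) hne (Sp := spc k K) (car_notin b 0) (car_notin b 1) hC hSP hSρ hn hsl hρ hη hd
    hk hkg hpos hεA
  rw [card_spc] at h1
  refine le_trans (le_of_eq ?_) h1
  simp only [Finset.mul_sum]
  rw [Finset.sum_comm]
  refine Finset.sum_congr rfl fun J _ => ?_
  exact bt_mean hr.nn a0 b0 (car b 0) (car b 1) J

/-- **[KX]**: the mean of the costs of one side, from pointwise bounds of the costs of the node levels -/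
theorem kx (h : EdgD D ρe η εQ ηQ c tp tq Ap Cq) (hr : AR D l en E) (hx : XA l en) {FP : α → φ}
    (hFP : ∀ ω, FP (D.P ω) = D.F ω) {FQ : β → φ}
    (hFQ : ∀ ω, FQ (D.Q ω) = D.F ω) {dd ρw r : ℕ} {g κ : ℝ} (hc : Cst (N + 1) dd ρw r g κ) (P : ℕ) (oL oR : ℕ → ℕ)
    (a0 b0 : Fin (k + 2 * K)) (b1 : Fin K) {C₀ S' L : ℕ} (hC : 1 ≤ C₀) (hSP : S' + C₀ + 2 ≤ P) (hSρ : S' + ρw ≤ P)
    (hn : L * P + C₀ ≤ D.n) (hsl : ((N + 1 : ℕ) : ℝ) / g * (Kas (N + 1) * 2 ^ (L * P)) ≤ 270000 * 2 ^ D.n)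
    (hρ : ρe ≤ N + 1) (hη : 0 ≤ η) (hd : 7 * E + 4 * (η * D.n) + 18 * (N + 1) ≤ ηQ * D.n) {kk : ℕ} (hk : kk ≤ D.n)
    (hkg : ((N + 1 : ℕ) : ℝ) / g * ((2 : ℝ) ^ kk)⁻¹ ≤ 270000) (hpos : 0 < ρe * D.n - kk - (21 * N + 28)) {εA : ℝ}
    (hεA : 6 * (η * D.n) + (N + 1) * (D.n + 5) * η + (N + 1) * εQ * D.n + 7 * E + 1 + (N + 1) * (5 * N + 25) ≤
      εA * (ρe * D.n - kk - (21 * N + 28)))
    {δ X : ℝ} (ho : ∀ a : Fin (k + 2 * K), ∑ i ∈ range L, ∑ s ∈ range S', ∑ mv : Option (Fin (k + 2 * K)),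
        Pw (push (row en a) l) (NCl D (push (row en a) l) b0 (EG (N + 1) ρw dd r g κ (push D.P D.μ) tp Ap) FP tp P ρw
          oL δ mv i s) ≤ X)
    (mv : ℕ → Option (Fin (k + 2 * K)))
    (G : Fin (k + 2 * K) → ℕ → Fin K → Lam Λ (Fin (k + 2 * K) → Ω) (8 * K) → γ)
    (hG : ∀ a m b w w', chl D l en ((sdL D FP tp Ap P ρw dd r g κ oL).nL m) b0 mv a (8 * K) w ≠ 0 →
      chl D l en ((sdL D FP tp Ap P ρw dd r g κ oL).nL m) b0 mv a (8 * K) w' ≠ 0 →
      D.zd (cur (row en a) (8 * K) w b0) = D.zd (cur (row en a) (8 * K) w' b0) →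
      (∀ j, 1 ≤ j → j ≤ 8 * K → Pp D en a b0 (8 * K) j w = Pp D en a b0 (8 * K) j w') →
      (∀ a', D.P (en a' b0 (bs (8 * K) w)) = D.P (en a' b0 (bs (8 * K) w'))) →
      (∀ c, (∀ e, c ≠ car b e) → D.Q (en a c (bs (8 * K) w)) = D.Q (en a c (bs (8 * K) w'))) →
      D.F (en a b0 (bs (8 * K) w)) = D.F (en a b0 (bs (8 * K) w')) → G a m b w = G a m b w')
    (hGX : ∀ a m b w w', chl D l en ((sdL D FP tp Ap P ρw dd r g κ oL).nL m) b0 mv a (8 * K) w ≠ 0 →
      chl D l en ((sdL D FP tp Ap P ρw dd r g κ oL).nL m) b0 mv a (8 * K) w' ≠ 0 → G a m b w = G a m b w' →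
      Fp D en a0 b0 (bs (8 * K) w) = Fp D en a0 b0 (bs (8 * K) w'))
    (R I : ℕ) (κ0 : Λ → ℕ → ℝ) (κa : Fin (k + 2 * K) → Λ → ℕ → ℝ) {c0 k00 cd ce cT cn : ℝ}
    (hc0 : 0 ≤ c0) (hcd : 0 ≤ cd) (hcT : 0 ≤ cT) (hcn : 0 ≤ cn)
    (hκ0 : ∀ w, l w ≠ 0 → ∀ m < L * P, m % P < S' → κ0 w m ≤ c0 * ∑ J ∈ range (L * P),
      bt (sdL D.mir FQ tq Cq P ρw dd r g κ oR) S' C₀ 270000 g D l en a0 b0 (car b1 0) (car b1 1) J w + k00)
    (hκa : ∀ a ∈ spc k K, ∀ w, l w ≠ 0 → ∀ m < L * P, m % P < S' → κa a w m ≤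
      cd * ∑ b, dfc D tq l en ((sdL D FP tp Ap P ρw dd r g κ oL).nL m) mv a0 b0 a b (G a m b) w + ce +
      cT * Ers D l en (EG (N + 1) ρw dd r g κ (push D.P D.μ) tp Ap) FP tp P ρw oL (m / P) (m % P) δ b0 mv a (8 * K)
        (Fp D en a0 b0) w +
      cn * e1_ind (¬ IsNd (cw (push D.P D.μ) ((sdL D FP tp Ap P ρw dd r g κ oL).nL m)
        (D.P (en a b0 w))) tp m dd ρw (cl m (tp (D.P (en a b0 w)))))) :
    ∑ w, l w * ∑ m ∈ range (L * P), (if m % P < S' then κ0 w m + ∑ a ∈ spc k K, κa a w m else (R : ℝ) * I) ≤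
      L * S' * (c0 * (L * (P - S') + clsN (N + 1) ρw r κ L P S' C₀ k E (η * D.n) εA) + k00) +
      k * (L * S' * (cd * (K * (2 * (η * D.n) + (2 * E + 8 * K * (E + 4 * (N + 1 : ℕ) + (η * D.n + (N + 1 : ℕ)))))) +
        ce) + cT * (L * S' * (8 * K * δ) + 8 * K * X) + cn * nBad (N + 1) r ρw L (η * D.n)) +
      L * (P - S') * (R * I) := by
  classical
  have hS'P : S' ≤ P := by omega
  have hml : ∑ w, l w = 1 := by
    have h1 : mass l = 1 := by
      rw [← Pool.Agent.Helper6.VS.push_mass (en a0 b0) l hr.nn, hr.pu a0 b0]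
      exact h.ed.ms
    exact h1
  set NS := (range (L * P)).filter (fun m => m % P < S') with hNS
  have hcard : (NS.card : ℝ) = L * S' := by
    rw [hNS, Pool.Agent.Helper82.FW.card_lt L P S' hS'P]
    push_cast
    ring
  have hgap : (((range (L * P)).filter (fun m => ¬ m % P < S')).card : ℝ) = L * (P - S') := by
    rw [Pool.Agent.Helper82.FW.card_gap L P S' hS'P, Nat.cast_mul, Nat.cast_sub hS'P]
  have hmem : ∀ m ∈ NS, m < L * P ∧ m % P < S' := by
    intro m hm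
    rw [hNS, Finset.mem_filter, Finset.mem_range] at hm
    exact hm
  have key := rows_mean l hml (spc k K) (L * P) I R (fun m => m % P < S') κ0 κa
  rw [key, hgap]
  refine add_le_add (add_le_add ?_ ?_) (le_of_eq (by ring))
  · -- the common cost
    have h1 : ∀ m ∈ NS, ∑ w, l w * κ0 w m ≤
        c0 * (L * (P - S') + clsN (N + 1) ρw r κ L P S' C₀ k E (η * D.n) εA) + k00 := by
      intro m hm
      obtain ⟨hm1, hm2⟩ := hmem m hm
      have h2 := kx_bt h hr hx hFQ hc P oR a0 b0 b1 hC hSP hSρ hn hsl hρ hη hd hk hkg hpos hεA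
      calc ∑ w, l w * κ0 w m ≤ ∑ w, l w * (c0 * ∑ J ∈ range (L * P),
          bt (sdL D.mir FQ tq Cq P ρw dd r g κ oR) S' C₀ 270000 g D l en a0 b0 (car b1 0) (car b1 1) J w + k00) := by
            refine Finset.sum_le_sum fun w _ => ?_
            by_cases hw : l w = 0
            · rw [hw, zero_mul, zero_mul]
            · exact mul_le_mul_of_nonneg_left (hκ0 w hw m hm1 hm2) (hr.nn w)
        _ = c0 * ∑ w, l w * ∑ J ∈ range (L * P),
          bt (sdL D.mir FQ tq Cq P ρw dd r g κ oR) S' C₀ 270000 g D l en a0 b0 (car b1 0) (car b1 1) J w + k00 := by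
            rw [Finset.mul_sum]
            have h3 : k00 = ∑ w, l w * k00 := by rw [← Finset.sum_mul, hml, one_mul]
            conv_rhs => rw [h3]
            rw [← Finset.sum_add_distrib]
            exact Finset.sum_congr rfl fun w _ => by ring
        _ ≤ _ := add_le_add (mul_le_mul_of_nonneg_left h2 hc0) le_rfl
    refine (Finset.sum_le_sum h1).trans (le_of_eq ?_)
    rw [Finset.sum_const, nsmul_eq_mul, hcard]
  · -- the costs of the spectators
    have h1 : ∀ a ∈ spc k K, ∑ m ∈ NS, ∑ w, l w * κa a w m ≤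
        L * S' * (cd * (K * (2 * (η * D.n) + (2 * E + 8 * K * (E + 4 * (N + 1 : ℕ) + (η * D.n + (N + 1 : ℕ)))))) +
        ce) + cT * (L * S' * (8 * K * δ) + 8 * K * X) + cn * nBad (N + 1) r ρw L (η * D.n) := by
      intro a ha
      have e1 := kx_ers (γ := (({a // a ∈ spc k K} → α) × ({b // b ∈ spc k K} → β)) × φ) h hr
        (EG (N + 1) ρw dd r g κ (push D.P D.μ) tp Ap) FP P ρw S' hS'P oL L b0 a mv (Fp D en a0 b0) (ho a)
      have e2 := kx_nd h hFP hr (r := r) (g := g) (κ := κ) hc.hDρ oL hSρ (by omega : L * P ≤ D.n) b0 a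
      have e3 : ∀ m ∈ NS, ∑ w, l w * κa a w m ≤
          (cd * (K * (2 * (η * D.n) + (2 * E + 8 * K * (E + 4 * (N + 1 : ℕ) + (η * D.n + (N + 1 : ℕ)))))) + ce) +
          cT * (∑ w, l w * Ers D l en (EG (N + 1) ρw dd r g κ (push D.P D.μ) tp Ap) FP tp P ρw oL (m / P) (m % P) δ
            b0 mv a (8 * K) (Fp D en a0 b0) w) +
          cn * Pw l (fun w => ¬ IsNd (cw (push D.P D.μ) ((sdL D FP tp Ap P ρw dd r g κ oL).nL m)
            (D.P (en a b0 w))) tp m dd ρw (cl m (tp (D.P (en a b0 w))))) := by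
        intro m hm
        obtain ⟨hm1, hm2⟩ := hmem m hm
        have f1 : ∑ w, l w * ∑ b, dfc D tq l en ((sdL D FP tp Ap P ρw dd r g κ oL).nL m) mv a0 b0 a b (G a m b) w ≤
            K * (2 * (η * D.n) + (2 * E + 8 * K * (E + 4 * (N + 1 : ℕ) + (η * D.n + (N + 1 : ℕ))))) := by
          simp only [Finset.mul_sum]
          rw [Finset.sum_comm]
          refine (Finset.sum_le_sum fun b _ => kx_cnt h hr hη ((sdL D FP tp Ap P ρw dd r g κ oL).nL m) mv a0 b0 a b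
            (G a m b) (hG a m b) (hGX a m b)).trans (le_of_eq ?_)
          rw [Finset.sum_const, card_fin, nsmul_eq_mul]
        have f2 : Pw l (fun w => ¬ IsNd (cw (push D.P D.μ) ((sdL D FP tp Ap P ρw dd r g κ oL).nL m)
            (D.P (en a b0 w))) tp m dd ρw (cl m (tp (D.P (en a b0 w))))) =
            ∑ w, l w * e1_ind (¬ IsNd (cw (push D.P D.μ)
              ((sdL D FP tp Ap P ρw dd r g κ oL).nL m) (D.P (en a b0 w))) tp m dd ρw (cl m (tp (D.P (en a b0 w))))) :=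
          Pool.Agent.Helper25.FA.Pw_sum l _
        calc ∑ w, l w * κa a w m ≤ ∑ w, l w *
              (cd * ∑ b, dfc D tq l en ((sdL D FP tp Ap P ρw dd r g κ oL).nL m) mv a0 b0 a b (G a m b) w + ce +
              cT * Ers D l en (EG (N + 1) ρw dd r g κ (push D.P D.μ) tp Ap) FP tp P ρw oL (m / P) (m % P) δ b0 mv a
                (8 * K) (Fp D en a0 b0) w +
              cn * e1_ind (¬ IsNd (cw (push D.P D.μ) ((sdL D FP tp Ap P ρw dd r g κ oL).nL m)
                (D.P (en a b0 w))) tp m dd ρw (cl m (tp (D.P (en a b0 w)))))) := by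
              refine Finset.sum_le_sum fun w _ => ?_
              by_cases hw : l w = 0
              · rw [hw, zero_mul, zero_mul]
              · exact mul_le_mul_of_nonneg_left (hκa a ha w hw m hm1 hm2) (hr.nn w)
          _ = cd * (∑ w, l w * ∑ b, dfc D tq l en ((sdL D FP tp Ap P ρw dd r g κ oL).nL m) mv a0 b0 a b (G a m b) w) +
              ce + cT * (∑ w, l w * Ers D l en (EG (N + 1) ρw dd r g κ (push D.P D.μ) tp Ap) FP tp P ρw oL (m / P)
                (m % P) δ b0 mv a (8 * K) (Fp D en a0 b0) w) +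
              cn * ∑ w, l w * e1_ind (¬ IsNd (cw (push D.P D.μ)
                ((sdL D FP tp Ap P ρw dd r g κ oL).nL m) (D.P (en a b0 w))) tp m dd ρw
                (cl m (tp (D.P (en a b0 w))))) := by
              exact lin4 l hml _ _ _ cd ce cT cn
          _ ≤ _ := by
              rw [f2]
              have f3 := mul_le_mul_of_nonneg_left f1 hcd
              linarith
      refine (Finset.sum_le_sum e3).trans ?_
      rw [Finset.sum_add_distrib, Finset.sum_add_distrib, Finset.sum_const, nsmul_eq_mul, hcard, ← Finset.mul_sum,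
        ← Finset.mul_sum]
      have g1 := mul_le_mul_of_nonneg_left e1 hcT
      have g2 := mul_le_mul_of_nonneg_left e2 hcn
      linarith
    refine (Finset.sum_le_sum h1).trans (le_of_eq ?_)
    rw [Finset.sum_const, card_spc, nsmul_eq_mul]

end one

end Pool.Agent.Helper58.FW
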