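import Pool.Agent.Helper58.FW.KX
import Pool.Agent.Helper78.FW.HC

/-!
# FW, row [KX] with the label of the counts of Helper6

`gK` : the label; `kyG`, `kyX` : it satisfies the hypotheses of `kx`; `ky` : [KX] for the costs of Helper78
(`dKb`, `Erl`).
-/

set_option autoImplicit false

namespace Pool.Agent.Helper58.FW

open Finset Pool.Agent.Helper69.RK Pool.Agent.Helper46.WF Pool.Agent.Helper58.VW Pool.Agent.Helper58.TR
open Pool.Agent.Helper61.GL hiding fl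
open Pool.Agent.Helper25.FA Pool.Agent.Helper99.FW Pool.Agent.Helper22.FW Pool.Agent.Helper18.FW
open Pool.Agent.Helper61.FW Pool.Agent.Helper78.FW Pool.Agent.Helper9.FW
open Pool.Agent.Helper9.ND (Rc)
open Pool.Agent.Helper6.FW (off G0K yv)

section lab

variable {Ω φ α β : Type} [Fintype Ω] {N k K : ℕ} {D : ED Ω φ α β N} {Λ : Type} [Fintype Λ] {l : Λ → ℝ}
  {en : Fin (k + 2 * K) → Fin (k + 2 * K) → Λ → Ω} {E : ℝ}

/-- the label of the counts: label of the row and the carriers of the other blocks -/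
noncomputable def gK (D : ED Ω φ α β N) (en : Fin (k + 2 * K) → Fin (k + 2 * K) → Λ → Ω)
    (b0 a : Fin (k + 2 * K)) (b : Fin K) (v : Lam Λ (Fin (k + 2 * K) → Ω) (8 * K)) :=
  (G0K D en a b0 v, off b (fun b v => fun e : Fin (1 + 1) => Qp D en a (8 * K) b v e) v)

omit [Fintype Λ] in
theorem kyG (b0 a : Fin (k + 2 * K)) (b : Fin K) (w w' : Lam Λ (Fin (k + 2 * K) → Ω) (8 * K))
    (h1 : D.zd (cur (row en a) (8 * K) w b0) = D.zd (cur (row en a) (8 * K) w' b0))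
    (h2 : ∀ j, 1 ≤ j → j ≤ 8 * K → Pp D en a b0 (8 * K) j w = Pp D en a b0 (8 * K) j w')
    (h3 : ∀ a', D.P (en a' b0 (bs (8 * K) w)) = D.P (en a' b0 (bs (8 * K) w')))
    (h4 : ∀ c, (∀ e, c ≠ car b e) → D.Q (en a c (bs (8 * K) w)) = D.Q (en a c (bs (8 * K) w')))
    (h5 : D.F (en a b0 (bs (8 * K) w)) = D.F (en a b0 (bs (8 * K) w'))) :
    gK D en b0 a b w = gK D en b0 a b w' := by
  unfold gK G0K
  have e1 : yv D en a b0 w = yv D en a b0 w' := by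
    funext i
    exact h2 (i.1 + 1) (by omega) (by omega)
  have e2 : PR D en b0 univ (bs (8 * K) w) = PR D en b0 univ (bs (8 * K) w') := by
    funext a'
    exact h3 a'.1
  have e3 : QC D en a (spc k K) (bs (8 * K) w) = QC D en a (spc k K) (bs (8 * K) w') := by
    funext c
    refine h4 c.1 fun e he => ?_
    have := car_notin (k := k) b e
    rw [← he] at this
    exact this c.2
  have e4 : off b (fun b v => fun e : Fin (1 + 1) => Qp D en a (8 * K) b v e) w =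
      off b (fun b v => fun e : Fin (1 + 1) => Qp D en a (8 * K) b v e) w' := by
    funext b'
    unfold off
    by_cases hb : b' = b
    · rw [if_pos hb, if_pos hb]
    · rw [if_neg hb, if_neg hb]
      congr 1
      funext e
      exact h4 (car b' e) fun e' he => hb (car_inj he).1
  rw [h1, e1, e2, e3, e4, h5]

theorem kyX (hr : AR D l en E) {ν' : Type} (nd : α → ν') (mv : ℕ → Option (Fin (k + 2 * K)))
    (a0 b0 a : Fin (k + 2 * K)) (b : Fin K) (w w' : Lam Λ (Fin (k + 2 * K) → Ω) (8 * K))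
    (hw : chl D l en nd b0 mv a (8 * K) w ≠ 0) (hw' : chl D l en nd b0 mv a (8 * K) w' ≠ 0)
    (h : gK D en b0 a b w = gK D en b0 a b w') :
    Fp D en a0 b0 (bs (8 * K) w) = Fp D en a0 b0 (bs (8 * K) w') := by
  classical
  have hb := chl_bs hr nd b0 mv a (8 * K)
  have hν := chl_nonneg hr nd b0 mv a (8 * K)
  have key : ∀ v, chl D l en nd b0 mv a (8 * K) v ≠ 0 → l (bs (8 * K) v) ≠ 0 := by
    intro v hv hl
    have h1 : chl D l en nd b0 mv a (8 * K) v ≤ push (bs (8 * K)) (chl D l en nd b0 mv a (8 * K)) (bs (8 * K) v) := by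
      unfold push
      have h2 := Finset.single_le_sum (f := fun x : Lam Λ (Fin (k + 2 * K) → Ω) (8 * K) =>
        if Pool.Agent.Helper25.FA.bs (8 * K) x = Pool.Agent.Helper25.FA.bs (8 * K) v then
        chl D l en nd b0 mv a (8 * K) x else 0) (s := univ) (fun x _ => by
          split_ifs
          · exact hν x
          · exact le_rfl) (Finset.mem_univ v)
      beta_reduce at h2
      rw [if_pos rfl] at h2
      refine h2.trans (le_of_eq (Finset.sum_congr rfl fun x _ => ?_))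
      split_ifs <;> rfl
    rw [hb, hl] at h1
    exact hv (le_antisymm h1 (hν v))
  have hl := key w hw
  have hl' := key w' hw'
  unfold gK G0K at h
  simp only [Prod.mk.injEq] at h
  obtain ⟨⟨⟨-, -⟩, ⟨h3, h4⟩, h5⟩, -⟩ := h
  unfold Fp
  simp only [Prod.mk.injEq]
  refine ⟨⟨?_, ?_⟩, ?_⟩
  · funext a'
    exact congrFun h3 ⟨a'.1, Finset.mem_univ _⟩
  · funext c
    have h6 := congrFun h4 c
    unfold QC at h6 ⊢
    rw [hr.sQ _ hl a0 a c.1, hr.sQ _ hl' a0 a c.1]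
    exact h6
  · rw [hr.sF _ hl a0 b0 a b0, hr.sF _ hl' a0 b0 a b0]
    exact h5

omit [Fintype Ω] [Fintype Λ] in
theorem ind_not (p : Prop) [Decidable p] : e1_ind (¬ p) = if p then (0 : ℝ) else 1 := by
  classical
  unfold e1_ind
  by_cases h : p
  · rw [if_pos h, if_neg (not_not.mpr h)]
  · rw [if_neg h, if_pos h]

theorem dKb_dfc {ν' : Type} (nd : α → ν') (tq : β → ℝ) (a0 b0 a : Fin (k + 2 * K)) (w : Λ) (b : Fin K) :
    dKb D l en nd tq a0 b0 a w b = dfc D tq l en nd (mvs k K) a0 b0 a b (gK D en b0 a b) w := rfl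

end lab

section one

variable {Ω φ α β : Type} [Fintype Ω] [Fintype α] [Fintype β] {N k K : ℕ} {D : ED Ω φ α β (N + 1)}
  {ρe η εQ ηQ c : ℝ} {tp : α → ℝ} {tq : β → ℝ} {Ap : α → Fin (N + 1) → ℝ} {Cq : β → Fin (N + 1) → ℝ} {Λ : Type}
  [Fintype Λ] {l : Λ → ℝ} {en : Fin (k + 2 * K) → Fin (k + 2 * K) → Λ → Ω} {E : ℝ}

/-- **[KX]** for the costs of the rows in the form of Helper78 -/
theorem ky (h : EdgD D ρe η εQ ηQ c tp tq Ap Cq) (hr : AR D l en E) (hx : XA l en) {FP : α → φ}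
    (hFP : ∀ ω, FP (D.P ω) = D.F ω) {FQ : β → φ}
    (hFQ : ∀ ω, FQ (D.Q ω) = D.F ω) {dd ρw r : ℕ} {g κ : ℝ} (hc : Cst (N + 1) dd ρw r g κ) (P : ℕ) (oL oR : ℕ → ℕ)
    (a0 b0 : Fin (k + 2 * K)) (b1 : Fin K) {C₀ S' L : ℕ} (hC : 1 ≤ C₀) (hSP : S' + C₀ + 2 ≤ P) (hSρ : S' + ρw ≤ P)
    (hn : L * P + C₀ ≤ D.n) (hsl : ((N + 1 : ℕ) : ℝ) / g * (Kas (N + 1) * 2 ^ (L * P)) ≤ 270000 * 2 ^ D.n)
    (hρ : ρe ≤ N + 1) (hη : 0 ≤ η) (hd : 7 * E + 4 * (η * D.n) + 18 * (N + 1) ≤ ηQ * D.n) {kk : ℕ} (hk : kk ≤ D.n)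
    (hkg : ((N + 1 : ℕ) : ℝ) / g * ((2 : ℝ) ^ kk)⁻¹ ≤ 270000) (hpos : 0 < ρe * D.n - kk - (21 * N + 28)) {εA : ℝ}
    (hεA : 6 * (η * D.n) + (N + 1) * (D.n + 5) * η + (N + 1) * εQ * D.n + 7 * E + 1 + (N + 1) * (5 * N + 25) ≤
      εA * (ρe * D.n - kk - (21 * N + 28)))
    {δ X : ℝ} (ho : ∀ a : Fin (k + 2 * K), ∑ i ∈ range L, ∑ s ∈ range S', ∑ mv : Option (Fin (k + 2 * K)),
        Pw (push (row en a) l) (NCl D (push (row en a) l) b0 (EG (N + 1) ρw dd r g κ (push D.P D.μ) tp Ap) FP tp P ρw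
          oL δ mv i s) ≤ X)
    (R I : ℕ) {c0 k00 cd ce cT cn : ℝ} (hc0 : 0 ≤ c0) (hcd : 0 ≤ cd) (hcT : 0 ≤ cT) (hcn : 0 ≤ cn) :
    ∑ w, l w * ∑ m ∈ range (L * P), (if m % P < S' then (c0 * ∑ J ∈ range (L * P),
      bt (sdL D.mir FQ tq Cq P ρw dd r g κ oR) S' C₀ 270000 g D l en a0 b0 (car b1 0) (car b1 1) J w + k00) +
      ∑ a ∈ spc k K, (cd * ∑ b, dKb D l en ((sdL D FP tp Ap P ρw dd r g κ oL).nL m) tq a0 b0 a w b + ce +
      cT * Erl D l en FP tp Ap P ρw dd r g κ oL δ a0 b0 a m w +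
      cn * e1_ind (¬ IsNd (cw (push D.P D.μ) ((sdL D FP tp Ap P ρw dd r g κ oL).nL m)
        (D.P (en a b0 w))) tp m dd ρw (cl m (tp (D.P (en a b0 w)))))) else (R : ℝ) * I) ≤
      L * S' * (c0 * (L * (P - S') + clsN (N + 1) ρw r κ L P S' C₀ k E (η * D.n) εA) + k00) +
      k * (L * S' * (cd * (K * (2 * (η * D.n) + (2 * E + 8 * K * (E + 4 * (N + 1 : ℕ) + (η * D.n + (N + 1 : ℕ)))))) +
        ce) + cT * (L * S' * (8 * K * δ) + 8 * K * X) + cn * nBad (N + 1) r ρw L (η * D.n)) +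
      L * (P - S') * (R * I) :=
  kx h hr hx hFP hFQ hc P oL oR a0 b0 b1 hC hSP hSρ hn hsl hρ hη hd hk hkg hpos hεA ho (mvs k K)
    (fun a _ b => gK D en b0 a b)
    (fun a _ b w w' _ _ h1 h2 h3 h4 h5 => kyG b0 a b w w' h1 h2 h3 h4 h5)
    (fun a _ b w w' hw hw' he => kyX hr _ (mvs k K) a0 b0 a b w w' hw hw' he)
    R I (fun w _ => c0 * ∑ J ∈ range (L * P),
      bt (sdL D.mir FQ tq Cq P ρw dd r g κ oR) S' C₀ 270000 g D l en a0 b0 (car b1 0) (car b1 1) J w + k00)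
    (fun a w m => cd * ∑ b, dKb D l en ((sdL D FP tp Ap P ρw dd r g κ oL).nL m) tq a0 b0 a w b + ce +
      cT * Erl D l en FP tp Ap P ρw dd r g κ oL δ a0 b0 a m w +
      cn * e1_ind (¬ IsNd (cw (push D.P D.μ) ((sdL D FP tp Ap P ρw dd r g κ oL).nL m)
        (D.P (en a b0 w))) tp m dd ρw (cl m (tp (D.P (en a b0 w))))))
    hc0 hcd hcT hcn (fun _ _ _ _ _ => le_rfl) (fun _ _ _ _ _ _ _ => le_rfl)

end one

end Pool.Agent.Helper58.FW
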