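import Pool.Agent.Helper92.FW.Chn

/-!
# FW: bad events of selected carriers

The selection is a function of the windows `W`; the windows are close to independent of the array `g0`. So the
probability that the SELECTED carriers are bad is the probability that fixed carriers are bad, up to the sum of the
one-step errors.
-/

set_option autoImplicit false

namespace Pool.Agent.Helper58.FW

open Finset Pool.Agent.Helper69.RK Pool.Agent.Helper61.GL Pool.Agent.Helper46.WF Pool.Agent.Helper58.VW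
open Pool.Agent.Helper92.FW (Cle chain_tv)

variable {Ω V γ ι : Type} [Fintype Ω] [Fintype V]

/-- **BAD EVENTS OF SELECTED CARRIERS**: one law (given `x`), `w` the law of a window -/
theorem sel_bad (μ : Ω → ℝ) (hμ : ∀ ω, 0 ≤ μ ω) (hm : ∑ ω, μ ω = 1) (g0 : Ω → γ) (w : V → ℝ)
    (hw : ∀ v, 0 ≤ w v) (hw1 : ∑ v, w v = 1) (M : ℕ) (κ : Fin M → Type) (G : ∀ i, Ω → κ i) (W : Ω → Fin M → V)
    (ε : Fin M → ℝ) (hε : ∀ i, 0 ≤ ε i)
    (hG : ∀ i ω ω', μ ω ≠ 0 → μ ω' ≠ 0 → G i ω = G i ω' → g0 ω = g0 ω' ∧ ∀ j, j < i → W ω j = W ω' j)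
    (sel : (Fin M → V) → ι) (Bad : ι → γ → Prop) (β : ℝ) (hβ : ∀ i, Pw μ (fun ω => Bad i (g0 ω)) ≤ β) :
    Pw μ (fun ω => Bad (sel (W ω)) (g0 ω)) ≤ β +
      ∑ i, (ε i + Pw μ (fun ω => ¬ Cle (cw μ (G i) ω) (fun ω => W ω i) w (ε i))) := by
  classical
  have h := chain_tv μ hμ hm g0 (fun _ => w) (fun _ => hw) (fun _ => hw1) M κ G W ε hε hG
    (fun d v => if Bad (sel v) d then 1 else 0) (fun d v => by split_ifs <;> norm_num)
  have e1 : Pw μ (fun ω => Bad (sel (W ω)) (g0 ω)) = ∑ ω, μ ω * (if Bad (sel (W ω)) (g0 ω) then 1 else 0) := by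
    unfold Pw
    refine Finset.sum_congr rfl fun ω _ => ?_
    split_ifs <;> simp
  rw [e1]
  refine h.trans (add_le_add ?_ le_rfl)
  have e2 : ∑ ω, μ ω * ∑ v, wK w M v * (if Bad (sel v) (g0 ω) then 1 else 0) =
      ∑ v, wK w M v * Pw μ (fun ω => Bad (sel v) (g0 ω)) := by
    simp only [Finset.mul_sum]
    rw [Finset.sum_comm]
    refine Finset.sum_congr rfl fun v _ => ?_
    unfold Pw
    rw [Finset.mul_sum]
    refine Finset.sum_congr rfl fun ω _ => ?_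
    split_ifs <;> ring
  rw [e2]
  have e3 : ∑ v, wK w M v * Pw μ (fun ω => Bad (sel v) (g0 ω)) ≤ ∑ v, wK w M v * β :=
    Finset.sum_le_sum fun v _ => mul_le_mul_of_nonneg_left (hβ _) (wK_nonneg hw M v)
  refine e3.trans (le_of_eq ?_)
  rw [← Finset.sum_mul, sum_wK hw1, one_mul]

/-- the same, summed over levels -/
theorem sel_bad_sum (μ : Ω → ℝ) (hμ : ∀ ω, 0 ≤ μ ω) (hm : ∑ ω, μ ω = 1) (g0 : Ω → γ) (w : V → ℝ)
    (hw : ∀ v, 0 ≤ w v) (hw1 : ∑ v, w v = 1) (M : ℕ) (κ : Fin M → Type) (G : ∀ i, Ω → κ i) (W : Ω → Fin M → V)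
    (ε : Fin M → ℝ) (hε : ∀ i, 0 ≤ ε i)
    (hG : ∀ i ω ω', μ ω ≠ 0 → μ ω' ≠ 0 → G i ω = G i ω' → g0 ω = g0 ω' ∧ ∀ j, j < i → W ω j = W ω' j)
    (sel : (Fin M → V) → ι) (J : Finset ℕ) (Bad : ℕ → ι → γ → Prop) (β : ℕ → ℝ)
    (hβ : ∀ j ∈ J, ∀ i, Pw μ (fun ω => Bad j i (g0 ω)) ≤ β j) :
    ∑ j ∈ J, Pw μ (fun ω => Bad j (sel (W ω)) (g0 ω)) ≤ ∑ j ∈ J, β j + J.card *
      ∑ i, (ε i + Pw μ (fun ω => ¬ Cle (cw μ (G i) ω) (fun ω => W ω i) w (ε i))) := by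
  refine (Finset.sum_le_sum fun j hj => sel_bad μ hμ hm g0 w hw hw1 M κ G W ε hε hG sel (Bad j) (β j)
    (hβ j hj)).trans (le_of_eq ?_)
  rw [Finset.sum_add_distrib, Finset.sum_const, nsmul_eq_mul]

/-- events at the levels `l t + X` are at most the events at all levels -/
theorem shift_sum (μ : Ω → ℝ) (hμ : ∀ ω, 0 ≤ μ ω) (T L : ℕ) (l : ℕ → ℕ) (hl : Function.Injective l) (X : Ω → ℕ)
    (hX : ∀ ω, μ ω ≠ 0 → ∀ t < T, l t + X ω < L) (B : ℕ → Ω → Prop) :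
    ∑ t ∈ range T, Pw μ (fun ω => B (l t + X ω) ω) ≤ ∑ j ∈ range L, Pw μ (B j) := by
  classical
  unfold Pw
  rw [Finset.sum_comm, Finset.sum_comm (s := range L)]
  refine Finset.sum_le_sum fun ω _ => ?_
  by_cases h0 : μ ω = 0
  · simp [h0]
  have e1 : ∑ t ∈ range T, (if B (l t + X ω) ω then μ ω else 0) =
      ∑ j ∈ (range T).image (fun t => l t + X ω), (if B j ω then μ ω else 0) := by
    rw [Finset.sum_image]
    intro a _ b _ e
    exact hl (by simpa using e)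
  rw [e1]
  refine Finset.sum_le_sum_of_subset_of_nonneg ?_ (fun j _ _ => by split_ifs <;> [exact hμ ω; exact le_rfl])
  intro j hj
  rw [Finset.mem_image] at hj
  obtain ⟨t, ht, rfl⟩ := hj
  rw [Finset.mem_range] at ht ⊢
  exact hX ω h0 t ht

end Pool.Agent.Helper58.FW
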