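import Pool.Agent.Helper92.FW.Chn

/-!
# FW: bad events of selected carriers, averaged form

`lab` is the node label (it determines the law `w` of a window and the selection rule), `g0` the array. The
probability that the SELECTED carriers are bad is at most the probability that the carriers `b0` are bad, up to the
sum of the one-step errors, when the events of the different carriers have the same law jointly with the label.
-/

set_option autoImplicit false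

namespace Pool.Agent.Helper58.FW

open Finset Pool.Agent.Helper69.RK Pool.Agent.Helper61.GL Pool.Agent.Helper46.WF Pool.Agent.Helper58.VW
open Pool.Agent.Helper92.FW (Cle chain_tv)

variable {Ω V Λ γ ι : Type} [Fintype Ω] [Fintype V] [Fintype ι]

/-- average of a function of the label over an event -/
theorem ex_fn (μ : Ω → ℝ) (lab : Ω → Λ) (A B : Ω → Prop)
    (h : ∀ a : Λ, Pw μ (fun ω => lab ω = a ∧ A ω) ≤ Pw μ (fun ω => lab ω = a ∧ B ω)) (f : Λ → ℝ)
    (hf : ∀ a, 0 ≤ f a) :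
    Pw (fun ω => μ ω * f (lab ω)) A ≤ Pw (fun ω => μ ω * f (lab ω)) B := by
  classical
  have key : ∀ A : Ω → Prop, Pw (fun ω => μ ω * f (lab ω)) A =
      ∑ a ∈ Finset.univ.image lab, f a * Pw μ (fun ω => lab ω = a ∧ A ω) := by
    intro A
    unfold Pw
    simp only [Finset.mul_sum]
    rw [Finset.sum_comm]
    refine Finset.sum_congr rfl fun ω _ => ?_
    rw [Finset.sum_eq_single_of_mem (lab ω) (Finset.mem_image_of_mem _ (Finset.mem_univ _))]
    · by_cases hA : A ω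
      · rw [if_pos hA, if_pos ⟨rfl, hA⟩, mul_comm]
      · rw [if_neg hA, if_neg (fun h' => hA h'.2), mul_zero]
    · intro a _ ha
      rw [if_neg (fun h' => ha h'.1.symm), mul_zero]
  rw [key A, key B]
  exact Finset.sum_le_sum fun a _ => mul_le_mul_of_nonneg_left (h a) (hf a)

/-- **BAD EVENTS OF SELECTED CARRIERS**, averaged form -/
theorem sel_avg (μ : Ω → ℝ) (hμ : ∀ ω, 0 ≤ μ ω) (hm : ∑ ω, μ ω = 1) (lab : Ω → Λ) (g0 : Ω → γ)
    (w : Λ → V → ℝ) (hw : ∀ a v, 0 ≤ w a v) (hw1 : ∀ a, ∑ v, w a v = 1) (M : ℕ) (κ : Fin M → Type)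
    (G : ∀ i, Ω → κ i) (W : Ω → Fin M → V) (ε : Fin M → ℝ) (hε : ∀ i, 0 ≤ ε i)
    (hG : ∀ i ω ω', μ ω ≠ 0 → μ ω' ≠ 0 → G i ω = G i ω' →
      (lab ω = lab ω' ∧ g0 ω = g0 ω') ∧ ∀ j, j < i → W ω j = W ω' j)
    (sel : Λ → (Fin M → V) → ι) (Bad : ι → Λ → γ → Prop) (b0 : ι)
    (hex : ∀ b a, Pw μ (fun ω => lab ω = a ∧ Bad b (lab ω) (g0 ω)) ≤
      Pw μ (fun ω => lab ω = a ∧ Bad b0 (lab ω) (g0 ω))) :
    Pw μ (fun ω => Bad (sel (lab ω) (W ω)) (lab ω) (g0 ω)) ≤ Pw μ (fun ω => Bad b0 (lab ω) (g0 ω)) +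
      ∑ i, (ε i + Pw μ (fun ω => ¬ Cle (cw μ (G i) ω) (fun ω => W ω i) (w (lab ω)) (ε i))) := by
  classical
  have h := chain_tv μ hμ hm (fun ω => (lab ω, g0 ω)) (fun d => w d.1) (fun d => hw d.1) (fun d => hw1 d.1)
    M κ G W ε hε (fun i ω ω' h1 h2 h3 => by
      obtain ⟨⟨a1, a2⟩, a3⟩ := hG i ω ω' h1 h2 h3
      exact ⟨Prod.ext a1 a2, a3⟩)
    (fun d v => if Bad (sel d.1 v) d.1 d.2 then 1 else 0) (fun d v => by split_ifs <;> norm_num)
  have e1 : Pw μ (fun ω => Bad (sel (lab ω) (W ω)) (lab ω) (g0 ω)) =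
      ∑ ω, μ ω * (if Bad (sel (lab ω) (W ω)) (lab ω) (g0 ω) then 1 else 0) := by
    unfold Pw
    refine Finset.sum_congr rfl fun ω _ => ?_
    split_ifs <;> simp
  rw [e1]
  refine h.trans (add_le_add ?_ le_rfl)
  -- the weights of the selection
  set th : ι → Λ → ℝ := fun b a => ∑ v, if sel a v = b then wK (w a) M v else 0 with hth
  have th0 : ∀ b a, 0 ≤ th b a := fun b a => Finset.sum_nonneg fun v _ => by
    split_ifs
    · exact wK_nonneg (hw a) M v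
    · exact le_rfl
  have th1 : ∀ a, ∑ b, th b a = 1 := by
    intro a
    rw [hth]
    simp only
    rw [Finset.sum_comm]
    have : ∀ v : Fin M → V, ∑ b, (if sel a v = b then wK (w a) M v else 0) = wK (w a) M v := by
      intro v
      rw [Finset.sum_ite_eq Finset.univ (sel a v) fun _ => wK (w a) M v, if_pos (Finset.mem_univ _)]
    rw [Finset.sum_congr rfl fun v _ => this v, sum_wK (hw1 a)]
  have e2 : ∑ ω, μ ω * ∑ v, wK (w (lab ω)) M v * (if Bad (sel (lab ω) v) (lab ω) (g0 ω) then 1 else 0) =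
      ∑ b, Pw (fun ω => μ ω * th b (lab ω)) (fun ω => Bad b (lab ω) (g0 ω)) := by
    unfold Pw
    rw [Finset.sum_comm]
    refine Finset.sum_congr rfl fun ω _ => ?_
    have g1 : ∀ b, (if Bad b (lab ω) (g0 ω) then μ ω * th b (lab ω) else 0) =
        μ ω * ∑ v, if sel (lab ω) v = b then
          wK (w (lab ω)) M v * (if Bad b (lab ω) (g0 ω) then 1 else 0) else 0 := by
      intro b
      by_cases hb : Bad b (lab ω) (g0 ω)
      · rw [if_pos hb, hth]
        simp only [if_pos hb, mul_one]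
      · simp [if_neg hb]
    rw [Finset.sum_congr rfl fun b _ => g1 b, ← Finset.mul_sum, Finset.sum_comm]
    congr 1
    refine Finset.sum_congr rfl fun v _ => ?_
    rw [Finset.sum_ite_eq Finset.univ (sel (lab ω) v) fun b =>
      wK (w (lab ω)) M v * (if Bad b (lab ω) (g0 ω) then 1 else 0), if_pos (Finset.mem_univ _)]
  rw [e2]
  refine (Finset.sum_le_sum fun b _ => ex_fn μ lab _ (fun ω => Bad b0 (lab ω) (g0 ω)) (hex b) (th b)
    (th0 b)).trans (le_of_eq ?_)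
  unfold Pw
  rw [Finset.sum_comm]
  refine Finset.sum_congr rfl fun ω _ => ?_
  by_cases hb : Bad b0 (lab ω) (g0 ω)
  · rw [if_pos hb, Finset.sum_congr rfl fun b _ => if_pos hb, ← Finset.mul_sum, th1, mul_one]
  · rw [if_neg hb, Finset.sum_congr rfl fun b _ => if_neg hb, Finset.sum_const_zero]

/-- the same, summed over levels -/
theorem sel_avg_sum (μ : Ω → ℝ) (hμ : ∀ ω, 0 ≤ μ ω) (hm : ∑ ω, μ ω = 1) (lab : Ω → Λ) (g0 : Ω → γ)
    (w : Λ → V → ℝ) (hw : ∀ a v, 0 ≤ w a v) (hw1 : ∀ a, ∑ v, w a v = 1) (M : ℕ) (κ : Fin M → Type)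
    (G : ∀ i, Ω → κ i) (W : Ω → Fin M → V) (ε : Fin M → ℝ) (hε : ∀ i, 0 ≤ ε i)
    (hG : ∀ i ω ω', μ ω ≠ 0 → μ ω' ≠ 0 → G i ω = G i ω' →
      (lab ω = lab ω' ∧ g0 ω = g0 ω') ∧ ∀ j, j < i → W ω j = W ω' j)
    (sel : Λ → (Fin M → V) → ι) (J : Finset ℕ) (Bad : ℕ → ι → Λ → γ → Prop) (b0 : ι)
    (hex : ∀ j ∈ J, ∀ b a, Pw μ (fun ω => lab ω = a ∧ Bad j b (lab ω) (g0 ω)) ≤
      Pw μ (fun ω => lab ω = a ∧ Bad j b0 (lab ω) (g0 ω))) :
    ∑ j ∈ J, Pw μ (fun ω => Bad j (sel (lab ω) (W ω)) (lab ω) (g0 ω)) ≤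
      ∑ j ∈ J, Pw μ (fun ω => Bad j b0 (lab ω) (g0 ω)) + J.card *
      ∑ i, (ε i + Pw μ (fun ω => ¬ Cle (cw μ (G i) ω) (fun ω => W ω i) (w (lab ω)) (ε i))) := by
  refine (Finset.sum_le_sum fun j hj => sel_avg μ hμ hm lab g0 w hw hw1 M κ G W ε hε hG sel (Bad j) b0
    (hex j hj)).trans (le_of_eq ?_)
  rw [Finset.sum_add_distrib, Finset.sum_const, nsmul_eq_mul]

end Pool.Agent.Helper58.FW
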